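import Mathlib

set_option autoImplicit false

/-!
# MP_76d2cf_co, Q1: the period ratios of an inside-out polytope need not divide each other
-/

namespace Pool.Agent.Results.MP_76d2cf_co.PeriodRatios

open Set

/-- The rational polytope with the given rational points as (candidate) vertices. -/
def polytope {d : ℕ} (V : Finset (Fin d → ℚ)) : Set (Fin d → ℝ) :=
  convexHull ℝ ((fun v i => (v i : ℝ)) '' (V : Set (Fin d → ℚ)))

/-- The rational hyperplane `∑ a i x i = b`. -/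
def hyper {d : ℕ} (h : (Fin d → ℚ) × ℚ) : Set (Fin d → ℝ) := {x | ∑ i, (h.1 i : ℝ) * x i = h.2}

/-- The dimension of a set. -/
noncomputable def dimension {d : ℕ} (P : Set (Fin d → ℝ)) : ℕ := Module.finrank ℝ (vectorSpan ℝ P)

/-- `(P, H)` is an inside-out polytope: `P` has dimension at least one, `H` is a finite set of
hyperplanes, none of which contains `P`, and every intersection of members of `H` that meets `P`
meets the relative interior of `P`. -/
def IsInsideOut {d : ℕ} (V : Finset (Fin d → ℚ)) (H : Finset ((Fin d → ℚ) × ℚ)) : Prop :=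
  1 ≤ dimension (polytope V) ∧ (∀ h ∈ H, h.1 ≠ 0 ∧ ¬ polytope V ⊆ hyper h) ∧
  ∀ A ⊆ H, ((⋂ h ∈ A, hyper h) ∩ polytope V).Nonempty →
    ((⋂ h ∈ A, hyper h) ∩ intrinsicInterior ℝ (polytope V)).Nonempty

/-- The number of points of `(1/t) ℤ^d` in the relative interior of the polytope and on none of
the hyperplanes. -/
noncomputable def Eopen {d : ℕ} (V : Finset (Fin d → ℚ)) (H : Finset ((Fin d → ℚ) × ℚ)) (t : ℕ) : ℕ :=
  Set.ncard {z : Fin d → ℤ | (fun i => (z i : ℝ) / t) ∈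
    intrinsicInterior ℝ (polytope V) \ ⋃ h ∈ H, hyper h}

/-- The number of points of `(1/t) ℤ^d` in the relative interior of the polytope. -/
noncomputable def Ewhole {d : ℕ} (V : Finset (Fin d → ℚ)) (t : ℕ) : ℕ :=
  Set.ncard {z : Fin d → ℤ | (fun i => (z i : ℝ) / t) ∈ intrinsicInterior ℝ (polytope V)}

/-- `f` is periodic on the positive integers with period `p ≥ 1`. -/
def IsPeriod (f : ℕ → ℝ) (p : ℕ) : Prop := 1 ≤ p ∧ ∀ t, 1 ≤ t → f (t + p) = f t

/-- The minimal period. -/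
noncomputable def minPeriod (f : ℕ → ℝ) : ℕ := sInf {p | IsPeriod f p}

/-- `E` is a quasipolynomial of degree at most `δ` with the periodic coefficient functions `c k`. -/
def IsQuasi (δ : ℕ) (E : ℕ → ℕ) (c : ℕ → ℕ → ℝ) : Prop :=
  (∀ k ≤ δ, ∃ p, IsPeriod (c k) p) ∧ ∀ t, 1 ≤ t → (E t : ℝ) = ∑ k ∈ Finset.range (δ + 1), c k t * t ^ k

/-! ### Uniqueness of the coefficients of a quasipolynomial of degree two -/

lemma IsPeriod.mul {f : ℕ → ℝ} {p : ℕ} (h : IsPeriod f p) (m : ℕ) :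
    ∀ t, 1 ≤ t → f (t + m * p) = f t := by
  induction m with
  | zero => intro t _; simp
  | succ m ih =>
    intro t ht
    have : t + (m + 1) * p = (t + m * p) + p := by ring
    rw [this, h.2 _ (by omega), ih t ht]

lemma unique_coeff {E : ℕ → ℕ} {c c' : ℕ → ℕ → ℝ} (h : IsQuasi 2 E c) (h' : IsQuasi 2 E c') :
    ∀ k ≤ 2, ∀ t, 1 ≤ t → c k t = c' k t := by
  obtain ⟨p0, hp0⟩ := h.1 0 (by norm_num)
  obtain ⟨p1, hp1⟩ := h.1 1 (by norm_num)
  obtain ⟨p2, hp2⟩ := h.1 2 (by norm_num)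
  obtain ⟨q0, hq0⟩ := h'.1 0 (by norm_num)
  obtain ⟨q1, hq1⟩ := h'.1 1 (by norm_num)
  obtain ⟨q2, hq2⟩ := h'.1 2 (by norm_num)
  set N : ℕ := p0 * p1 * p2 * q0 * q1 * q2 with hN
  have hNpos : 0 < N := by
    have := hp0.1; have := hp1.1; have := hp2.1; have := hq0.1; have := hq1.1; have := hq2.1
    positivity
  have per : ∀ (f : ℕ → ℝ) (p : ℕ), IsPeriod f p → p ∣ N → ∀ j t, 1 ≤ t → f (t + j * N) = f t := by
    rintro f p hf ⟨m, hm⟩ j t ht
    have := hf.mul (j * m) t ht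
    rw [hm]
    convert this using 2
    ring
  have d0 : p0 ∣ N := ⟨p1 * p2 * q0 * q1 * q2, by rw [hN]; ring⟩
  have d1 : p1 ∣ N := ⟨p0 * p2 * q0 * q1 * q2, by rw [hN]; ring⟩
  have d2 : p2 ∣ N := ⟨p0 * p1 * q0 * q1 * q2, by rw [hN]; ring⟩
  have e0 : q0 ∣ N := ⟨p0 * p1 * p2 * q1 * q2, by rw [hN]; ring⟩
  have e1 : q1 ∣ N := ⟨p0 * p1 * p2 * q0 * q2, by rw [hN]; ring⟩
  have e2 : q2 ∣ N := ⟨p0 * p1 * p2 * q0 * q1, by rw [hN]; ring⟩
  intro k hk t ht
  have key : ∀ j : ℕ, (c 0 t - c' 0 t) + (c 1 t - c' 1 t) * ((t : ℝ) + j * N) +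
      (c 2 t - c' 2 t) * ((t : ℝ) + j * N) ^ 2 = 0 := by
    intro j
    have h1 := h.2 (t + j * N) (by omega)
    have h2 := h'.2 (t + j * N) (by omega)
    rw [h1] at h2
    simp only [Finset.sum_range_succ, Finset.sum_range_zero] at h2
    rw [per _ p0 hp0 d0 j t ht, per _ p1 hp1 d1 j t ht, per _ p2 hp2 d2 j t ht,
      per _ q0 hq0 e0 j t ht, per _ q1 hq1 e1 j t ht, per _ q2 hq2 e2 j t ht] at h2
    push_cast at h2
    linarith
  have k0 := key 0
  have k1 := key 1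
  have k2 := key 2
  push_cast at k0 k1 k2
  have hNr : (0 : ℝ) < N := by exact_mod_cast hNpos
  have a2 : (c 2 t - c' 2 t) * (2 * N ^ 2) = 0 := by linarith
  have b2 : c 2 t - c' 2 t = 0 := by
    rcases mul_eq_zero.1 a2 with h | h
    · exact h
    · exfalso
      have : (0 : ℝ) < 2 * N ^ 2 := by positivity
      linarith
  rw [b2] at k0 k1
  have a1 : (c 1 t - c' 1 t) * N = 0 := by linarith
  have b1 : c 1 t - c' 1 t = 0 := by
    rcases mul_eq_zero.1 a1 with h | h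
    · exact h
    · exfalso; linarith
  rw [b1] at k0
  have b0 : c 0 t - c' 0 t = 0 := by linarith
  interval_cases k <;> linarith

lemma minPeriod_congr {f g : ℕ → ℝ} (h : ∀ t, 1 ≤ t → f t = g t) : minPeriod f = minPeriod g := by
  unfold minPeriod
  congr 1
  ext p
  simp only [Set.mem_ofPred_eq, IsPeriod]
  constructor
  · rintro ⟨h1, h2⟩
    exact ⟨h1, fun t ht => by rw [← h _ (by omega), ← h t ht, h2 t ht]⟩
  · rintro ⟨h1, h2⟩
    exact ⟨h1, fun t ht => by rw [h _ (by omega), h t ht, h2 t ht]⟩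

lemma minPeriod_const (a : ℝ) : minPeriod (fun _ => a) = 1 := by
  apply le_antisymm
  · exact Nat.sInf_le ⟨le_refl 1, fun _ _ => rfl⟩
  · have hne : {p | IsPeriod (fun _ => a) p}.Nonempty := ⟨1, le_refl 1, fun _ _ => rfl⟩
    exact (Nat.sInf_mem hne).1

/-! ### The example -/

/-- the triangle with vertices `(-2, 0)`, `(2, 0)`, `(1, 1/2)` -/
def T : Finset (Fin 2 → ℚ) := {![-2, 0], ![2, 0], ![1, 1 / 2]}

/-- the line `x = 2 y` -/
def H : Finset ((Fin 2 → ℚ) × ℚ) := {(![1, -2], 0)}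

lemma image_T : ((fun v i => (v i : ℝ)) '' (T : Set (Fin 2 → ℚ))) =
    {![-2, 0], ![2, 0], ![1, 1 / 2]} := by
  have e1 : (fun i => ((![-2, 0] : Fin 2 → ℚ) i : ℝ)) = ![-2, 0] := by
    ext i; fin_cases i <;> simp
  have e2 : (fun i => ((![2, 0] : Fin 2 → ℚ) i : ℝ)) = ![2, 0] := by
    ext i; fin_cases i <;> simp
  have e3 : (fun i => ((![1, 1 / 2] : Fin 2 → ℚ) i : ℝ)) = ![1, 1 / 2] := by
    ext i; fin_cases i <;> simp
  simp only [T, Finset.coe_insert, Finset.coe_singleton, Set.image_insert_eq, Set.image_singleton,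
    e1, e2, e3]

lemma mem_polytope (x : Fin 2 → ℝ) : x ∈ polytope T ↔
    0 ≤ x 1 ∧ 6 * x 1 - 2 ≤ x 0 ∧ x 0 ≤ 2 - 2 * x 1 := by
  rw [polytope, image_T]
  constructor
  · intro hx
    have hconv : Convex ℝ {x : Fin 2 → ℝ | 0 ≤ x 1 ∧ 6 * x 1 - 2 ≤ x 0 ∧ x 0 ≤ 2 - 2 * x 1} := by
      rintro x ⟨h1, h2, h3⟩ y ⟨h4, h5, h6⟩ a b ha hb hab
      simp only [Set.mem_ofPred_eq, Pi.add_apply, Pi.smul_apply, smul_eq_mul]
      have hb' : b = 1 - a := by linarith
      subst hb'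
      refine ⟨?_, ?_, ?_⟩
      · positivity
      · nlinarith
      · nlinarith
    have hsub : ({![-2, 0], ![2, 0], ![1, 1 / 2]} : Set (Fin 2 → ℝ)) ⊆
        {x : Fin 2 → ℝ | 0 ≤ x 1 ∧ 6 * x 1 - 2 ≤ x 0 ∧ x 0 ≤ 2 - 2 * x 1} := by
      rintro y (rfl | rfl | rfl)
      · simp
      · simp
      · simp; norm_num
    exact convexHull_min hsub hconv hx
  · rintro ⟨h1, h2, h3⟩
    have hc := convex_convexHull ℝ ({![-2, 0], ![2, 0], ![1, 1 / 2]} : Set (Fin 2 → ℝ))
    have m1 : (![-2, 0] : Fin 2 → ℝ) ∈ convexHull ℝ ({![-2, 0], ![2, 0], ![1, 1 / 2]} : Set (Fin 2 → ℝ)) :=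
      subset_convexHull ℝ _ (by simp)
    have m2 : (![2, 0] : Fin 2 → ℝ) ∈ convexHull ℝ ({![-2, 0], ![2, 0], ![1, 1 / 2]} : Set (Fin 2 → ℝ)) :=
      subset_convexHull ℝ _ (by simp)
    have m3 : (![1, 1 / 2] : Fin 2 → ℝ) ∈ convexHull ℝ ({![-2, 0], ![2, 0], ![1, 1 / 2]} : Set (Fin 2 → ℝ)) :=
      subset_convexHull ℝ _ (by simp)
    have key := hc.sum_mem (t := Finset.univ)
      (w := ![(2 - 2 * x 1 - x 0) / 4, (2 - 6 * x 1 + x 0) / 4, 2 * x 1])
      (z := ![![-2, 0], ![2, 0], ![1, 1 / 2]])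
      (by intro i _; fin_cases i <;> simp <;> linarith)
      (by simp [Fin.sum_univ_succ]; ring)
      (by intro i _; fin_cases i
          · exact m1
          · exact m2
          · exact m3)
    convert key using 1
    ext i
    fin_cases i
    · simp [Fin.sum_univ_succ]; ring
    · simp [Fin.sum_univ_succ]; ring

lemma intrinsic_eq {s : Set (Fin 2 → ℝ)} (h : affineSpan ℝ s = ⊤) :
    intrinsicInterior ℝ s = interior s := by
  apply Subset.antisymm _ interior_subset_intrinsicInterior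
  intro x hx
  obtain ⟨y, hy, rfl⟩ := mem_intrinsicInterior.1 hx
  obtain ⟨V, hV, hVe⟩ := isOpen_induced_iff.1
    (isOpen_interior (s := ((↑) ⁻¹' s : Set (affineSpan ℝ s))))
  rw [mem_interior]
  refine ⟨V, ?_, hV, ?_⟩
  · intro v hv
    have hv' : v ∈ affineSpan ℝ s := by rw [h]; trivial
    have : (⟨v, hv'⟩ : affineSpan ℝ s) ∈ interior ((↑) ⁻¹' s : Set (affineSpan ℝ s)) := by
      rw [← hVe]; exact hv
    exact (interior_subset this : (⟨v, hv'⟩ : affineSpan ℝ s) ∈ ((↑) ⁻¹' s : Set (affineSpan ℝ s)))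
  · rw [← hVe] at hy
    exact hy

lemma mem_interior_polytope (x : Fin 2 → ℝ) : x ∈ interior (polytope T) ↔
    0 < x 1 ∧ 6 * x 1 - 2 < x 0 ∧ x 0 < 2 - 2 * x 1 := by
  constructor
  · intro hx
    obtain ⟨ε, hε, hb⟩ := Metric.mem_nhds_iff.1 (mem_interior_iff_mem_nhds.1 hx)
    have test : ∀ a b : ℝ, |a| < ε → |b| < ε → (![x 0 + a, x 1 + b] : Fin 2 → ℝ) ∈ polytope T := by
      intro a b ha hb'
      apply hb
      rw [Metric.mem_ball, dist_pi_lt_iff hε]
      intro i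
      fin_cases i
      · simpa [Real.dist_eq] using ha
      · simpa [Real.dist_eq] using hb'
    have hε2 : |ε / 2| < ε := by rw [abs_of_pos (by linarith)]; linarith
    have hε3 : |-(ε / 2)| < ε := by rw [abs_neg]; exact hε2
    have h0 : |(0 : ℝ)| < ε := by simpa using hε
    have t1 := (mem_polytope _).1 (test 0 (-(ε / 2)) h0 hε3)
    have t2 := (mem_polytope _).1 (test (-(ε / 2)) 0 hε3 h0)
    have t3 := (mem_polytope _).1 (test (ε / 2) 0 hε2 h0)
    simp at t1 t2 t3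
    refine ⟨?_, ?_, ?_⟩ <;> linarith
  · intro hx
    rw [mem_interior]
    refine ⟨{x : Fin 2 → ℝ | 0 < x 1 ∧ 6 * x 1 - 2 < x 0 ∧ x 0 < 2 - 2 * x 1}, ?_, ?_, hx⟩
    · rintro y ⟨h1, h2, h3⟩
      exact (mem_polytope y).2 ⟨h1.le, h2.le, h3.le⟩
    · apply IsOpen.inter
      · exact isOpen_lt continuous_const (continuous_apply 1)
      · apply IsOpen.inter
        · exact isOpen_lt (by fun_prop) (continuous_apply 0)
        · exact isOpen_lt (continuous_apply 0) (by fun_prop)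

lemma span_top : affineSpan ℝ (polytope T) = ⊤ := by
  have hconv : Convex ℝ (polytope T) := convex_convexHull ℝ _
  apply hconv.interior_nonempty_iff_affineSpan_eq_top.1
  refine ⟨![1 / 2, 1 / 4], ?_⟩
  rw [mem_interior_polytope]
  norm_num

lemma mem_intrinsic (x : Fin 2 → ℝ) : x ∈ intrinsicInterior ℝ (polytope T) ↔
    0 < x 1 ∧ 6 * x 1 - 2 < x 0 ∧ x 0 < 2 - 2 * x 1 := by
  rw [intrinsic_eq span_top, mem_interior_polytope]

lemma dim_two : dimension (polytope T) = 2 := by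
  unfold dimension
  rw [← direction_affineSpan, span_top, AffineSubspace.direction_top, finrank_top]
  simp

/-! ### The counting -/

lemma whole_set (t : ℕ) (ht : 1 ≤ t) :
    {z : Fin 2 → ℤ | (fun i => (z i : ℝ) / t) ∈ intrinsicInterior ℝ (polytope T)} =
    {z : Fin 2 → ℤ | 0 < z 1 ∧ 6 * z 1 - 2 * t < z 0 ∧ z 0 < 2 * t - 2 * z 1} := by
  ext z
  simp only [Set.mem_ofPred_eq, mem_intrinsic]
  have htr : (0 : ℝ) < t := by exact_mod_cast ht
  have e1 : (0 : ℝ) < (z 1 : ℝ) / t ↔ 0 < z 1 := by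
    rw [div_pos_iff_of_pos_right htr]
    exact_mod_cast Iff.rfl
  have e2 : 6 * ((z 1 : ℝ) / t) - 2 < (z 0 : ℝ) / t ↔ 6 * z 1 - 2 * t < z 0 := by
    rw [lt_div_iff₀ htr]
    have : (6 * ((z 1 : ℝ) / t) - 2) * t = 6 * z 1 - 2 * t := by field_simp
    rw [this]
    exact_mod_cast Iff.rfl
  have e3 : (z 0 : ℝ) / t < 2 - 2 * ((z 1 : ℝ) / t) ↔ z 0 < 2 * t - 2 * z 1 := by
    rw [div_lt_iff₀ htr]
    have : (2 - 2 * ((z 1 : ℝ) / t)) * t = 2 * t - 2 * z 1 := by field_simp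
    rw [this]
    exact_mod_cast Iff.rfl
  rw [e1, e2, e3]

lemma mem_hyperH (x : Fin 2 → ℝ) : x ∈ (⋃ h ∈ H, hyper h) ↔ x 0 = 2 * x 1 := by
  simp only [H, Finset.mem_singleton, Set.iUnion_iUnion_eq_left, hyper, Set.mem_ofPred_eq,
    Fin.sum_univ_two]
  simp
  constructor <;> intro h <;> linarith

lemma open_set (t : ℕ) (ht : 1 ≤ t) :
    {z : Fin 2 → ℤ | (fun i => (z i : ℝ) / t) ∈ intrinsicInterior ℝ (polytope T) \ ⋃ h ∈ H, hyper h} =
    {z : Fin 2 → ℤ | (0 < z 1 ∧ 6 * z 1 - 2 * t < z 0 ∧ z 0 < 2 * t - 2 * z 1) ∧ z 0 ≠ 2 * z 1} := by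
  ext z
  have h1 := Set.ext_iff.1 (whole_set t ht) z
  simp only [Set.mem_ofPred_eq, Set.mem_sdiff] at h1 ⊢
  rw [h1, mem_hyperH]
  have htr : (0 : ℝ) < t := by exact_mod_cast ht
  have e : (z 0 : ℝ) / t = 2 * ((z 1 : ℝ) / t) ↔ z 0 = 2 * z 1 := by
    rw [div_eq_iff htr.ne']
    have : 2 * ((z 1 : ℝ) / t) * t = 2 * z 1 := by field_simp
    rw [this]
    exact_mod_cast Iff.rfl
  rw [e]

lemma whole_count (s t : ℕ) (h : t = 2 * s + 1 ∨ t = 2 * s + 2) :
    ((Set.ncard {z : Fin 2 → ℤ | 0 < z 1 ∧ 6 * z 1 - 2 * t < z 0 ∧ z 0 < 2 * t - 2 * z 1} : ℕ) : ℤ)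
      = s * (4 * t - 5 - 4 * s) := by
  have hset : {z : Fin 2 → ℤ | 0 < z 1 ∧ 6 * z 1 - 2 * t < z 0 ∧ z 0 < 2 * t - 2 * z 1} =
      (((Finset.range s).sigma fun j : ℕ =>
        Finset.Ioo (6 * ((j : ℤ) + 1) - 2 * t) (2 * t - 2 * ((j : ℤ) + 1))).image
        (fun p => (![p.2, (p.1 : ℤ) + 1] : Fin 2 → ℤ)) : Finset (Fin 2 → ℤ)) := by
    ext z
    simp only [Set.mem_ofPred_eq, Finset.coe_image, Set.mem_image, Finset.mem_coe,
      Finset.mem_sigma, Finset.mem_range, Finset.mem_Ioo]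
    constructor
    · rintro ⟨h1, h2, h3⟩
      refine ⟨⟨(z 1 - 1).toNat, z 0⟩, ⟨?_, ?_, ?_⟩, ?_⟩
      · simp only; omega
      · simp only; omega
      · simp only; omega
      · ext i; fin_cases i
        · simp
        · simp; omega
    · rintro ⟨⟨j, x⟩, ⟨h1, h2, h3⟩, rfl⟩
      simp only [Matrix.cons_val_zero, Matrix.cons_val_one] at *
      refine ⟨by omega, h2, h3⟩
  rw [hset, Set.ncard_coe_finset, Finset.card_image_of_injective, Finset.card_sigma]
  · push_cast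
    have : ∀ j ∈ Finset.range s, ((Finset.Ioo (6 * ((j : ℤ) + 1) - 2 * t) (2 * t - 2 * ((j : ℤ) + 1))).card : ℤ)
        = 4 * t - 9 - 8 * j := by
      intro j hj
      rw [Finset.mem_range] at hj
      rw [Int.card_Ioo]
      omega
    rw [Finset.sum_congr rfl this]
    clear hset this h
    induction s with
    | zero => simp
    | succ s ih => rw [Finset.sum_range_succ, ih]; push_cast; ring
  · rintro ⟨a, b⟩ ⟨c, d⟩ hab
    have h0 := congrFun hab 0
    have h1 := congrFun hab 1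
    simp at h0 h1
    subst h0 h1
    rfl

lemma open_count (s t : ℕ) (h : t = 2 * s + 1 ∨ t = 2 * s + 2) :
    ((Set.ncard {z : Fin 2 → ℤ | (0 < z 1 ∧ 6 * z 1 - 2 * t < z 0 ∧ z 0 < 2 * t - 2 * z 1) ∧
      z 0 ≠ 2 * z 1} : ℕ) : ℤ) = s * (4 * t - 6 - 4 * s) := by
  have hset : {z : Fin 2 → ℤ | (0 < z 1 ∧ 6 * z 1 - 2 * t < z 0 ∧ z 0 < 2 * t - 2 * z 1) ∧
      z 0 ≠ 2 * z 1} =
      (((Finset.range s).sigma fun j : ℕ =>
        (Finset.Ioo (6 * ((j : ℤ) + 1) - 2 * t) (2 * t - 2 * ((j : ℤ) + 1))).erase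
          (2 * ((j : ℤ) + 1))).image
        (fun p => (![p.2, (p.1 : ℤ) + 1] : Fin 2 → ℤ)) : Finset (Fin 2 → ℤ)) := by
    ext z
    simp only [Set.mem_ofPred_eq, Finset.coe_image, Set.mem_image, Finset.mem_coe,
      Finset.mem_sigma, Finset.mem_range, Finset.mem_Ioo, Finset.mem_erase]
    constructor
    · rintro ⟨⟨h1, h2, h3⟩, h4⟩
      refine ⟨⟨(z 1 - 1).toNat, z 0⟩, ⟨?_, ?_, ?_, ?_⟩, ?_⟩
      · simp only; omega
      · simp only; omega
      · simp only; omega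
      · simp only; omega
      · ext i; fin_cases i
        · simp
        · simp; omega
    · rintro ⟨⟨j, x⟩, ⟨h1, h4, h2, h3⟩, rfl⟩
      simp only [Matrix.cons_val_zero, Matrix.cons_val_one] at *
      refine ⟨⟨by omega, h2, h3⟩, h4⟩
  rw [hset, Set.ncard_coe_finset, Finset.card_image_of_injective, Finset.card_sigma]
  · push_cast
    have : ∀ j ∈ Finset.range s, (((Finset.Ioo (6 * ((j : ℤ) + 1) - 2 * t)
        (2 * t - 2 * ((j : ℤ) + 1))).erase (2 * ((j : ℤ) + 1))).card : ℤ) = 4 * t - 10 - 8 * j := by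
      intro j hj
      rw [Finset.mem_range] at hj
      rw [Finset.card_erase_of_mem (by rw [Finset.mem_Ioo]; omega), Int.card_Ioo]
      omega
    rw [Finset.sum_congr rfl this]
    clear hset this h
    induction s with
    | zero => simp
    | succ s ih => rw [Finset.sum_range_succ, ih]; push_cast; ring
  · rintro ⟨a, b⟩ ⟨c, d⟩ hab
    have h0 := congrFun hab 0
    have h1 := congrFun hab 1
    simp at h0 h1
    subst h0 h1
    rfl

/-- the coefficients of `E°` -/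
noncomputable def co : ℕ → ℕ → ℝ := fun k _ => if k = 0 then 2 else if k = 1 then -3 else 1

/-- the coefficients of `E^w` -/
noncomputable def cw : ℕ → ℕ → ℝ := fun k t =>
  if k = 0 then (if Even t then 1 else 3 / 2) else if k = 1 then -(5 / 2) else 1

lemma quasi_open : IsQuasi 2 (Eopen T H) co := by
  constructor
  · intro k _
    exact ⟨1, le_refl 1, fun _ _ => rfl⟩
  · intro t ht
    unfold Eopen
    rw [open_set t ht]
    obtain ⟨s, hs⟩ : ∃ s, t = 2 * s + 1 ∨ t = 2 * s + 2 := ⟨(t - 1) / 2, by omega⟩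
    have hc := open_count s t hs
    have hc' : ((Set.ncard {z : Fin 2 → ℤ | (0 < z 1 ∧ 6 * z 1 - 2 * t < z 0 ∧
      z 0 < 2 * t - 2 * z 1) ∧ z 0 ≠ 2 * z 1} : ℕ) : ℝ) = s * (4 * t - 6 - 4 * s) := by
      exact_mod_cast congrArg (fun z : ℤ => (z : ℝ)) hc
    rw [hc']
    simp only [Finset.sum_range_succ, Finset.sum_range_zero, co]
    rcases hs with hs | hs
    · have : (t : ℝ) = 2 * s + 1 := by exact_mod_cast hs
      rw [this]; norm_num; ring
    · have : (t : ℝ) = 2 * s + 2 := by exact_mod_cast hs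
      rw [this]; norm_num; ring

lemma quasi_whole : IsQuasi 2 (Ewhole T) cw := by
  constructor
  · intro k _
    refine ⟨2, by norm_num, fun t _ => ?_⟩
    simp only [cw, Nat.even_add, show Even 2 from ⟨1, rfl⟩, iff_true]
  · intro t ht
    unfold Ewhole
    rw [whole_set t ht]
    obtain ⟨s, hs⟩ : ∃ s, t = 2 * s + 1 ∨ t = 2 * s + 2 := ⟨(t - 1) / 2, by omega⟩
    have hc := whole_count s t hs
    have hc' : ((Set.ncard {z : Fin 2 → ℤ | 0 < z 1 ∧ 6 * z 1 - 2 * t < z 0 ∧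
      z 0 < 2 * t - 2 * z 1} : ℕ) : ℝ) = s * (4 * t - 5 - 4 * s) := by
      exact_mod_cast congrArg (fun z : ℤ => (z : ℝ)) hc
    rw [hc']
    simp only [Finset.sum_range_succ, Finset.sum_range_zero, cw]
    rcases hs with hs | hs
    · have h2 : ¬ Even t := by rw [hs]; exact Nat.not_even_two_mul_add_one s
      have : (t : ℝ) = 2 * s + 1 := by exact_mod_cast hs
      simp only [h2, if_true, if_false]
      rw [this]; norm_num; ring
    · have h2 : Even t := by rw [hs]; exact ⟨s + 1, by ring⟩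
      have : (t : ℝ) = 2 * s + 2 := by exact_mod_cast hs
      simp only [h2, if_true]
      rw [this]; norm_num; ring

lemma minPeriod_cw0 : minPeriod (cw 0) = 2 := by
  have hne : {p | IsPeriod (cw 0) p}.Nonempty := by
    refine ⟨2, by norm_num, fun t _ => ?_⟩
    simp only [cw, Nat.even_add, show Even 2 from ⟨1, rfl⟩, iff_true]
  apply le_antisymm
  · apply Nat.sInf_le
    refine ⟨by norm_num, fun t _ => ?_⟩
    simp only [cw, Nat.even_add, show Even 2 from ⟨1, rfl⟩, iff_true]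
  · have hm := Nat.sInf_mem hne
    change 2 ≤ sInf {p | IsPeriod (cw 0) p}
    by_contra hlt
    have h1 : sInf {p | IsPeriod (cw 0) p} = 1 := by
      have := hm.1
      omega
    rw [h1] at hm
    have := hm.2 1 (le_refl 1)
    simp [cw] at this
    norm_num at this

/-- **MP_76d2cf_co, Q1: disproved.**  There is an inside-out polytope `(P, H)` and an index
`1 ≤ k ≤ dim P` such that `p_k p^w_{k-1}` does not divide `p_{k-1} p^w_k`; here `p_k` and `p^w_k` are
the minimal periods of the coefficient functions of `E°` and `E^w` (which exist, and are unique on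
the positive integers). -/
theorem result : ∃ (d : ℕ) (V : Finset (Fin d → ℚ)) (H : Finset ((Fin d → ℚ) × ℚ)),
    IsInsideOut V H ∧
    (∃ c, IsQuasi (dimension (polytope V)) (Eopen V H) c) ∧
    (∃ c, IsQuasi (dimension (polytope V)) (Ewhole V) c) ∧
    ∃ k, 1 ≤ k ∧ k ≤ dimension (polytope V) ∧
      ∀ c cw, IsQuasi (dimension (polytope V)) (Eopen V H) c →
        IsQuasi (dimension (polytope V)) (Ewhole V) cw →
        ¬ (minPeriod (c k) * minPeriod (cw (k - 1)) ∣ minPeriod (c (k - 1)) * minPeriod (cw k)) := by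
  refine ⟨2, T, H, ⟨?_, ?_, ?_⟩, ?_, ?_, 1, le_refl 1, ?_, ?_⟩
  · rw [dim_two]; norm_num
  · intro h hh
    simp only [H, Finset.mem_singleton] at hh
    subst hh
    refine ⟨?_, ?_⟩
    · intro h0
      have := congrFun h0 0
      simp at this
    · intro hsub
      have h1 : (![2, 0] : Fin 2 → ℝ) ∈ polytope T := by
        rw [mem_polytope]; norm_num
      have h2 := hsub h1
      simp [hyper] at h2
  · intro A hA _
    refine ⟨![1 / 2, 1 / 4], ?_, ?_⟩
    · simp only [Set.mem_iInter]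
      intro h hh
      have := hA hh
      simp only [H, Finset.mem_singleton] at this
      subst this
      simp [hyper]
      norm_num
    · rw [mem_intrinsic]; norm_num
  · rw [dim_two]; exact ⟨co, quasi_open⟩
  · rw [dim_two]; exact ⟨cw, quasi_whole⟩
  · rw [dim_two]; norm_num
  · rw [dim_two]
    intro c c' hc hc'
    have u1 := unique_coeff hc quasi_open
    have u2 := unique_coeff hc' quasi_whole
    have m1 : minPeriod (c 1) = 1 := by
      rw [minPeriod_congr (u1 1 (by norm_num))]; exact minPeriod_const _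
    have m2 : minPeriod (c 0) = 1 := by
      rw [minPeriod_congr (u1 0 (by norm_num))]; exact minPeriod_const _
    have m3 : minPeriod (c' 1) = 1 := by
      rw [minPeriod_congr (u2 1 (by norm_num))]; exact minPeriod_const _
    have m4 : minPeriod (c' 0) = 2 := by
      rw [minPeriod_congr (u2 0 (by norm_num))]; exact minPeriod_cw0
    simp only [Nat.sub_self]
    rw [m1, m2, m3, m4]
    norm_num

end Pool.Agent.Results.MP_76d2cf_co.PeriodRatios
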